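import Mathlib

set_option autoImplicit false

namespace Pool.Agent.Results.MP_ecc06a_al.OddClass

open Subgroup

section defs

variable {G : Type*} [Group G]

/-- `ceil P` is the intersection of the maximal subgroups of `G` that contain `P`
(it is `G` itself when there is no such maximal subgroup). -/
def ceil (P : Set G) : Subgroup G := sInf {M : Subgroup G | IsCoatom M ∧ P ⊆ (M : Set G)}

/-- The deficiency of `S`: the least size of a set `Q` such that `S ∪ Q` generates `G`. -/
noncomputable def deficiency (S : Set G) : ℕ :=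
  sInf {n : ℕ | ∃ Q : Finset G, Q.card = n ∧ closure (S ∪ (Q : Set G)) = ⊤}

/-- The class of `I` contains a nonterminal position. -/
def IsClass (I : Subgroup G) : Prop := ∃ P : Set G, closure P ≠ ⊤ ∧ ceil P = I

/-- The class of `L` is an option of the class of `I`: some member of the class of `L` is an
option of some (nonterminal) position in the class of `I`. -/
def IsOption (I L : Subgroup G) : Prop :=
  ∃ (P : Set G) (g : G), closure P ≠ ⊤ ∧ ceil P = I ∧ g ∉ P ∧ ceil (P ∪ {g}) = L

theorem subset_ceil (P : Set G) : P ⊆ (ceil P : Set G) := by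
  intro x hx
  simp only [ceil, SetLike.mem_coe, Subgroup.mem_sInf, Set.mem_ofPred_eq]
  intro M hM
  exact hM.2 hx

theorem ceil_le {P : Set G} {M : Subgroup G} (hM : IsCoatom M) (h : P ⊆ (M : Set G)) :
    ceil P ≤ M := sInf_le ⟨hM, h⟩

end defs

section frob

variable {V : Type} [CommGroup V] [Finite V] (C : Subgroup (MulAut V))

abbrev Gp := SemidirectProduct V C C.subtype

instance : Finite C := by
  have : Finite (MulAut V) := DFunLike.finite _
  infer_instance

instance : Finite (Gp C) := Finite.of_equiv _ (SemidirectProduct.equivProd (φ := C.subtype)).symm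

variable (free : ∀ c ∈ C, c ≠ 1 → ∀ v : V, c v = v → v = 1)
variable (trans : ∀ v w : V, v ≠ 1 → w ≠ 1 → ∃ c ∈ C, c v = w)

def cpl : Subgroup (Gp C) := (SemidirectProduct.inr : C →* Gp C).range

theorem mem_cpl (g : Gp C) : g ∈ cpl C ↔ g.left = 1 := by
  constructor
  · rintro ⟨c, rfl⟩; simp
  · intro h
    exact ⟨g.right, by ext <;> simp [h]⟩

include trans in
theorem top_of_mem (H : Subgroup (Gp C)) (hH : H.map (SemidirectProduct.rightHom) = ⊤)
    (v : V) (hv : v ≠ 1) (hm : SemidirectProduct.inl v ∈ H) : H = ⊤ := by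
  have key : ∀ w : V, (SemidirectProduct.inl w : Gp C) ∈ H := by
    intro w
    by_cases hw : w = 1
    · subst hw; simp
    obtain ⟨c, hc, hcv⟩ := trans v w hv hw
    have : (⟨c, hc⟩ : C) ∈ H.map (SemidirectProduct.rightHom (φ := C.subtype)) := by
      rw [hH]; trivial
    obtain ⟨g, hg, hgc⟩ := this
    have h1 := H.mul_mem (H.mul_mem hg hm) (H.inv_mem hg)
    have h2 : g * SemidirectProduct.inl v * g⁻¹ = SemidirectProduct.inl w := by
      ext
      · have h3 : g.right = ⟨c, hc⟩ := hgc
        simp [h3, hcv]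
      · simp
    rwa [h2] at h1
  rw [eq_top_iff]
  intro g _
  have : g.right ∈ H.map (SemidirectProduct.rightHom (φ := C.subtype)) := by
    rw [hH]; trivial
  obtain ⟨g', hg', hgc⟩ := this
  have h3 : g'.right = g.right := hgc
  have h4 : g = SemidirectProduct.inl (g.left * g'.left⁻¹) * g' := by
    ext
    · simp
    · simp [h3]
  rw [h4]
  exact H.mul_mem (key _) hg'

include trans in
theorem cpl_coatom (hV : ∃ v : V, v ≠ 1) : IsCoatom (cpl C) := by
  constructor
  · intro h
    obtain ⟨v, hv⟩ := hV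
    have : (SemidirectProduct.inl v : Gp C) ∈ cpl C := by rw [h]; trivial
    rw [mem_cpl] at this
    exact hv (by simpa using this)
  · intro H hH
    obtain ⟨g, hg, hg'⟩ := SetLike.exists_of_lt hH
    rw [mem_cpl] at hg'
    apply top_of_mem C trans H _ g.left hg'
    · have h1 : (SemidirectProduct.inr g.right : Gp C) ∈ H :=
        hH.le ⟨g.right, rfl⟩
      have h2 := H.mul_mem hg (H.inv_mem h1)
      have h3 : g * (SemidirectProduct.inr g.right)⁻¹ = SemidirectProduct.inl g.left := by
        ext <;> simp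
      rwa [h3] at h2
    · rw [eq_top_iff]
      intro c _
      exact ⟨SemidirectProduct.inr c, hH.le ⟨c, rfl⟩, by simp⟩

include trans in
theorem conj_coatom (hV : ∃ v : V, v ≠ 1) (x : Gp C) :
    IsCoatom ((cpl C).map (MulAut.conj x).toMonoidHom) := by
  have := (MulEquiv.mapSubgroup (MulAut.conj x)).isCoatom_iff (cpl C)
  exact this.mpr (cpl_coatom C trans hV)

theorem card_conj (x : Gp C) : Nat.card ((cpl C).map (MulAut.conj x).toMonoidHom) = Nat.card C := by
  rw [Subgroup.card_map_of_injective (MulEquiv.injective _)]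
  have h : Function.Injective (SemidirectProduct.inr : C →* Gp C) := SemidirectProduct.inr_injective
  exact (Nat.card_congr (MonoidHom.ofInjective h).toEquiv).symm

include free in
theorem exists_conj (g : Gp C) (hg : g.right ≠ 1) :
    ∃ x : Gp C, g ∈ (cpl C).map (MulAut.conj x).toMonoidHom := by
  have hinj : Function.Injective (fun u : V => u * ((g.right : MulAut V) u)⁻¹) := by
    intro u w h
    have h1 : (g.right : MulAut V) (w⁻¹ * u) = w⁻¹ * u := by
      rw [map_mul, map_inv]
      have h2 : u * ((g.right : MulAut V) u)⁻¹ = w * ((g.right : MulAut V) w)⁻¹ := h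
      generalize (g.right : MulAut V) u = a at *
      generalize (g.right : MulAut V) w = b at *
      have h3 : u = w * b⁻¹ * a := by
        rw [← h2]; simp
      rw [h3]
      simp [mul_assoc]
    have h4 := free g.right g.right.2 (by
      intro h; exact hg (Subtype.ext h)) _ h1
    exact (inv_mul_eq_one.mp h4).symm
  obtain ⟨u, hu⟩ := (Finite.injective_iff_surjective.mp hinj) g.left
  refine ⟨SemidirectProduct.inl u, SemidirectProduct.inr g.right, ⟨g.right, rfl⟩, ?_⟩
  show SemidirectProduct.inl u * SemidirectProduct.inr g.right * (SemidirectProduct.inl u)⁻¹ = g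
  ext
  · rw [← hu]; simp
  · simp

variable (c1 c2 : C) (hgen : closure {c1, c2} = ⊤) (hrel : c2 * c1 * c2⁻¹ = c1 ^ 4)
  (h3 : c1 ^ 4 ≠ 1) (hnc : c1 ^ 4 ≠ c1)

include hrel hnc in
theorem not_gen (h : Gp C) : ∃ M : Subgroup (Gp C), IsCoatom M ∧ h ∈ M ∧
    ∀ g : Gp C, g.right = 1 → g ∈ M := by
  have h1 : (zpowers h.right).comap (SemidirectProduct.rightHom (φ := C.subtype)) ≠ ⊤ := by
    intro htop
    have hz : ∀ c : C, c ∈ zpowers h.right := by
      intro c
      have : (SemidirectProduct.inr c : Gp C) ∈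
          (zpowers h.right).comap (SemidirectProduct.rightHom (φ := C.subtype)) := by
        rw [htop]; trivial
      simpa using this
    obtain ⟨i, hi⟩ := hz c1
    obtain ⟨j, hj⟩ := hz c2
    have hcomm : c2 * c1 = c1 * c2 := by
      rw [← hi, ← hj]
      show h.right ^ j * h.right ^ i = h.right ^ i * h.right ^ j
      rw [← zpow_add, ← zpow_add, add_comm]
    apply hnc
    rw [← hrel, hcomm]
    simp
  obtain h2 | ⟨M, hM, hle⟩ := eq_top_or_exists_le_coatom
    ((zpowers h.right).comap (SemidirectProduct.rightHom (φ := C.subtype)))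
  · exact absurd h2 h1
  · refine ⟨M, hM, hle ?_, fun g hg => hle ?_⟩
    · rw [Subgroup.mem_comap]
      exact mem_zpowers _
    · rw [Subgroup.mem_comap]
      show g.right ∈ _
      rw [hg]
      exact one_mem _

include trans hgen hrel h3 free in
theorem gen_two (v : V) (hv : v ≠ 1) :
    closure ({SemidirectProduct.inr c1, SemidirectProduct.inl v * SemidirectProduct.inr c2} :
      Set (Gp C)) = ⊤ := by
  set H := closure ({SemidirectProduct.inr c1, SemidirectProduct.inl v * SemidirectProduct.inr c2} :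
      Set (Gp C)) with hH
  have m1 : (SemidirectProduct.inr c1 : Gp C) ∈ H := subset_closure (by simp)
  have m2 : (SemidirectProduct.inl v * SemidirectProduct.inr c2 : Gp C) ∈ H :=
    subset_closure (by simp)
  have hmap : H.map (SemidirectProduct.rightHom (φ := C.subtype)) = ⊤ := by
    rw [eq_top_iff, ← hgen, closure_le]
    rintro c (rfl | rfl)
    · exact ⟨_, m1, by simp⟩
    · exact ⟨_, m2, by simp⟩
  have m3 := H.mul_mem (H.mul_mem (H.mul_mem m2 m1) (H.inv_mem m2)) (H.inv_mem (H.pow_mem m1 4))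
  apply top_of_mem C trans H hmap (v * ((c1 ^ 4 : C) : MulAut V) v⁻¹) _ _
  · intro h
    apply hv
    apply free (c1 ^ 4 : C) (c1 ^ 4 : C).2 (fun h => h3 (Subtype.ext h))
    rw [map_inv, mul_inv_eq_one] at h
    exact h.symm
  · convert m3 using 1
    have e1 : SemidirectProduct.inl v * SemidirectProduct.inr c2 * SemidirectProduct.inr c1 *
        (SemidirectProduct.inl v * SemidirectProduct.inr c2)⁻¹ * (SemidirectProduct.inr c1 ^ 4)⁻¹ =
        (SemidirectProduct.inl v * SemidirectProduct.inr (c2 * c1 * c2⁻¹) *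
          (SemidirectProduct.inl v)⁻¹ * (SemidirectProduct.inr (c1 ^ 4))⁻¹ : Gp C) := by
      simp only [map_mul, map_inv, map_pow, mul_inv_rev, mul_assoc]
    rw [e1, hrel]
    generalize c1 ^ 4 = d
    ext
    · simp
    · simp

include free trans hgen hrel h3 hnc in
theorem main (hV : ∃ v : V, v ≠ 1) (hodd : Odd (Nat.card C)) :
    IsClass (ceil (∅ : Set (Gp C))) ∧ Odd (Nat.card (ceil (∅ : Set (Gp C)))) ∧
    deficiency ((ceil (∅ : Set (Gp C)) : Subgroup (Gp C)) : Set (Gp C)) = 2 ∧
    ∀ L, IsOption (ceil (∅ : Set (Gp C))) L →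
      ¬ (Even (Nat.card L) ∧ deficiency (L : Set (Gp C)) = 1) := by
  have hcoat := cpl_coatom C trans hV
  obtain ⟨v, hv⟩ := hV
  have hbelow : ∀ M : Subgroup (Gp C), IsCoatom M → ceil (∅ : Set (Gp C)) ≤ M :=
    fun M hM => ceil_le hM (Set.empty_subset _)
  have hcardcpl : Nat.card (cpl C) = Nat.card C := by
    have := card_conj C (1 : Gp C)
    rwa [Subgroup.card_map_of_injective (MulEquiv.injective _)] at this
  have oddsub : ∀ (H K : Subgroup (Gp C)), H ≤ K → Nat.card K = Nat.card C → Odd (Nat.card H) := by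
    intro H K hHK hK
    have := Subgroup.card_dvd_of_le hHK
    rw [hK] at this
    exact hodd.of_dvd_nat this
  refine ⟨⟨∅, ?_, rfl⟩, ?_, ?_, ?_⟩
  · rw [Subgroup.closure_empty]
    intro h
    have : (SemidirectProduct.inl v : Gp C) ∈ (⊥ : Subgroup (Gp C)) := by rw [h]; trivial
    rw [mem_bot] at this
    exact hv (SemidirectProduct.inl_injective (this.trans (map_one _).symm))
  · exact oddsub _ _ (hbelow _ hcoat) hcardcpl
  · classical
    apply le_antisymm
    · apply Nat.sInf_le
      refine ⟨{SemidirectProduct.inr c1, SemidirectProduct.inl v * SemidirectProduct.inr c2},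
        ?_, ?_⟩
      · rw [Finset.card_pair]
        intro h
        have := congrArg SemidirectProduct.left h
        simp at this
        exact hv this.symm
      · rw [eq_top_iff, ← gen_two C free trans c1 c2 hgen hrel h3 v hv]
        apply Subgroup.closure_mono
        intro x hx
        right
        simpa using hx
    · apply le_csInf
      · refine ⟨_, (Set.toFinite (Set.univ : Set (Gp C))).toFinset, rfl, ?_⟩
        rw [eq_top_iff]
        intro x _
        apply Subgroup.subset_closure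
        right
        simp
      · rintro n ⟨Q, rfl, hQ⟩
        by_contra hlt
        push Not at hlt
        have hQ1 : Q.card ≤ 1 := by omega
        rw [Finset.card_le_one_iff_subset_singleton] at hQ1
        obtain ⟨h, hQh⟩ := hQ1
        obtain ⟨M, hM, hhM, -⟩ := not_gen C c1 c2 hrel hnc h
        apply hM.1
        rw [eq_top_iff, ← hQ, closure_le]
        rintro x (hx | hx)
        · exact hbelow M hM hx
        · have := hQh hx
          rw [Finset.mem_singleton] at this
          rw [this]; exact hhM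
  · rintro L ⟨P, g, hP, hPI, hgP, rfl⟩ ⟨heven, hdef⟩
    have hPsub : ∀ M : Subgroup (Gp C), IsCoatom M → P ⊆ (M : Set (Gp C)) := by
      intro M hM
      have h1 := subset_ceil P
      rw [hPI] at h1
      exact h1.trans (hbelow M hM)
    by_cases hg : g.right = 1
    · have hne : {n : ℕ | ∃ Q : Finset (Gp C), Q.card = n ∧
          closure (((ceil (P ∪ {g}) : Subgroup (Gp C)) : Set (Gp C)) ∪ (Q : Set (Gp C))) = ⊤}.Nonempty := by
        by_contra hne
        rw [Set.not_nonempty_iff_eq_empty] at hne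
        unfold deficiency at hdef
        rw [hne] at hdef
        simp at hdef
      have hmem := Nat.sInf_mem hne
      change (deficiency ((ceil (P ∪ {g}) : Subgroup (Gp C)) : Set (Gp C))) ∈ _ at hmem
      rw [hdef] at hmem
      obtain ⟨Q, hQ1, hQ⟩ := hmem
      obtain ⟨h, rfl⟩ := Finset.card_eq_one.mp hQ1
      obtain ⟨M, hM, hhM, hVM⟩ := not_gen C c1 c2 hrel hnc h
      apply hM.1
      rw [eq_top_iff, ← hQ, closure_le]
      rintro x (hx | hx)
      · apply ceil_le hM _ hx
        rintro y (hy | hy)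
        · exact hPsub M hM hy
        · rw [Set.mem_singleton_iff] at hy
          rw [hy]
          exact hVM g hg
      · simp only [Finset.coe_singleton, Set.mem_singleton_iff] at hx
        rw [hx]; exact hhM
    · obtain ⟨x, hx⟩ := exists_conj C free g hg
      have hM := conj_coatom C trans ⟨v, hv⟩ x
      have hle : ceil (P ∪ {g}) ≤ (cpl C).map (MulAut.conj x).toMonoidHom := by
        apply ceil_le hM
        rintro y (hy | hy)
        · exact hPsub _ hM hy
        · rw [Set.mem_singleton_iff] at hy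
          rw [hy]
          exact hx
      have := oddsub _ _ hle (card_conj C x)
      exact (Nat.not_even_iff_odd.mpr this) heven

end frob

section field

abbrev K := GaloisField 2 6

theorem cardK : Nat.card K = 64 := by
  rw [GaloisField.card 2 6 (by norm_num)]; norm_num

theorem exists_g : ∃ g : K, g ≠ 0 ∧ (∀ x : K, x ≠ 0 → ∃ m : ℕ, x = g ^ m) ∧
    (∀ m : ℕ, g ^ m = 1 ↔ 63 ∣ m) := by
  obtain ⟨g, hg⟩ := IsCyclic.exists_generator (α := Kˣ)
  refine ⟨g, g.ne_zero, ?_, ?_⟩
  · intro x hx
    obtain ⟨m, hm⟩ := (Submonoid.mem_powers_iff _ _).mp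
      ((mem_powers_iff_mem_zpowers (x := g) (y := Units.mk0 x hx)).mpr (hg _))
    refine ⟨m, ?_⟩
    have := congrArg (fun u : Kˣ => (u : K)) hm
    simpa using this.symm
  · intro m
    have h1 : orderOf g = 63 := by
      rw [orderOf_eq_card_of_forall_mem_zpowers hg, Nat.card_units, cardK]
    rw [← h1, orderOf_dvd_iff_pow_eq_one, ← Units.val_pow_eq_pow_val, Units.val_eq_one]

variable (g : K)

/-- the maps `x ↦ a * x ^ (4 ^ i)` with `a ^ 21 = (g ^ 21) ^ i` -/
def PP (i : ℕ) (f : MulAut (Multiplicative K)) : Prop :=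
  ∃ a : K, a ^ 21 = (g ^ 21) ^ i ∧ ∀ x : K, (f (Multiplicative.ofAdd x)).toAdd = a * x ^ (4 ^ i)

theorem four_pow_mod (i : ℕ) : ∃ m, 4 ^ i = 3 * m + 1 := by
  induction i with
  | zero => exact ⟨0, rfl⟩
  | succ i ih =>
    obtain ⟨m, hm⟩ := ih
    exact ⟨4 * m + 1, by rw [pow_succ, hm]; ring⟩

theorem cube_pow (w : K) (hw : w ^ 3 = 1) (i : ℕ) : w ^ (4 ^ i) = w := by
  obtain ⟨m, hm⟩ := four_pow_mod i
  rw [hm, pow_succ, pow_mul, hw, one_pow, one_mul]

theorem PP_mul (hg : (g ^ 21) ^ 3 = 1) (i j : ℕ) (f h : MulAut (Multiplicative K))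
    (hf : PP g i f) (hh : PP g j h) : PP g (i + j) (f * h) := by
  obtain ⟨a, ha, haf⟩ := hf
  obtain ⟨b, hb, hbh⟩ := hh
  refine ⟨a * b ^ (4 ^ i), ?_, ?_⟩
  · rw [mul_pow, ha, ← pow_mul b, mul_comm (4 ^ i) 21, pow_mul b, hb, pow_add]
    congr 1
    apply cube_pow
    rw [← pow_mul, mul_comm, pow_mul, hg, one_pow]
  · intro x
    rw [MulAut.mul_apply]
    have h1 : h (Multiplicative.ofAdd x) = Multiplicative.ofAdd (b * x ^ (4 ^ j)) := by
      rw [← hbh x]; rfl
    rw [h1, haf, mul_pow, ← pow_mul, ← pow_add, add_comm j i, mul_assoc]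

theorem PP_pow (hg : (g ^ 21) ^ 3 = 1) (i : ℕ) (f : MulAut (Multiplicative K)) (hf : PP g i f)
    (n : ℕ) : PP g (i * n) (f ^ n) := by
  induction n with
  | zero => exact ⟨1, by simp, fun x => by simp⟩
  | succ n ih =>
    rw [pow_succ, Nat.mul_succ]
    exact PP_mul g hg _ _ _ _ ih hf

/-- the point stabiliser -/
def Cc (hg : (g ^ 21) ^ 3 = 1) : Subgroup (MulAut (Multiplicative K)) where
  carrier := {f | ∃ i, PP g i f}
  one_mem' := ⟨0, 1, by simp, fun x => by simp⟩
  mul_mem' := by
    rintro f h ⟨i, hi⟩ ⟨j, hj⟩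
    exact ⟨_, PP_mul g hg i j f h hi hj⟩
  inv_mem' := by
    rintro f ⟨i, hi⟩
    have : Finite (MulAut (Multiplicative K)) := DFunLike.finite _
    have h1 : f⁻¹ = f ^ (orderOf f - 1) := by
      rw [inv_eq_iff_mul_eq_one, ← pow_succ', Nat.sub_add_cancel (orderOf_pos f),
        pow_orderOf_eq_one]
    rw [h1]
    exact ⟨_, PP_pow g hg i f hi _⟩

/-- the automorphism `x ↦ a * x ^ (4 ^ i)` -/
noncomputable def aut (a : K) (ha : a ≠ 0) (i : ℕ) : MulAut (Multiplicative K) :=
  AddEquiv.toMultiplicative (AddEquiv.ofBijective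
    ({ toFun := fun x => a * x ^ (4 ^ i)
       map_zero' := by simp
       map_add' := fun x y => by
        rw [show (4 : ℕ) ^ i = 2 ^ (2 * i) by rw [pow_mul]; norm_num, add_pow_char_pow, mul_add] } :
      K →+ K) (by
      apply Finite.injective_iff_bijective.mp
      rw [injective_iff_map_eq_zero]
      intro x hx
      have hx' : a * x ^ (4 ^ i) = 0 := hx
      rcases mul_eq_zero.mp hx' with h | h
      · exact absurd h ha
      · exact pow_eq_zero_iff (by positivity) |>.mp h))

theorem aut_apply (a : K) (ha : a ≠ 0) (i : ℕ) (x : K) :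
    (aut a ha i (Multiplicative.ofAdd x)).toAdd = a * x ^ (4 ^ i) := rfl

theorem aut_PP (a : K) (ha : a ≠ 0) (i : ℕ) (h : a ^ 21 = (g ^ 21) ^ i) : PP g i (aut a ha i) :=
  ⟨a, h, fun _ => rfl⟩

theorem ofAdd_ne {x : K} (h : x ≠ 0) : Multiplicative.ofAdd x ≠ 1 := fun h' => h h'

variable (hg0 : g ≠ 0) (hgen : ∀ x : K, x ≠ 0 → ∃ m : ℕ, x = g ^ m)
  (hord : ∀ m : ℕ, g ^ m = 1 ↔ 63 ∣ m)

include hord in
theorem g213 : (g ^ 21) ^ 3 = 1 := by
  rw [← pow_mul, hord]

include hg0 hgen hord in
theorem K63 (x : K) (hx : x ≠ 0) : x ^ 63 = 1 := by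
  obtain ⟨m, rfl⟩ := hgen x hx
  rw [← pow_mul, hord]
  exact Dvd.intro_left m rfl

include hg0 hgen hord in
theorem Cc_free (c : MulAut (Multiplicative K)) (hc : c ∈ Cc g (g213 g hord)) (hc1 : c ≠ 1)
    (v : Multiplicative K) (hv : c v = v) : v = 1 := by
  by_contra hne
  obtain ⟨i, a, ha, hac⟩ := hc
  have hx : v.toAdd ≠ 0 := fun h => hne h
  set x := v.toAdd with hxv
  have h1 : a * x ^ (4 ^ i) = x := by
    rw [← hac x]
    exact congrArg Multiplicative.toAdd hv
  obtain ⟨m, hm⟩ := four_pow_mod i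
  have h2 : a * (x ^ 3) ^ m = 1 := by
    rw [hm, pow_succ, pow_mul, ← mul_assoc] at h1
    exact (mul_eq_right₀ hx).mp h1
  have h3 : a ^ 21 = 1 := by
    have h4 := congrArg (fun t => t ^ 21) h2
    simp only [mul_pow, one_pow] at h4
    have h5 : ((x ^ 3) ^ m) ^ 21 = 1 := by
      rw [← pow_mul, ← pow_mul, show 3 * (m * 21) = 63 * m by ring, pow_mul,
        K63 g hg0 hgen hord x hx, one_pow]
    rwa [h5, mul_one] at h4
  rw [ha, ← pow_mul, hord] at h3
  have h5 : 3 ∣ i := by omega
  obtain ⟨j, rfl⟩ := h5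
  apply hc1
  have h6 : ∀ y : K, y ^ (4 ^ (3 * j)) = y := by
    intro y
    by_cases hy : y = 0
    · rw [hy]; exact zero_pow (by positivity)
    have h7 : ∃ k, 4 ^ (3 * j) = 63 * k + 1 := by
      induction j with
      | zero => exact ⟨0, rfl⟩
      | succ j ih =>
        have : ∃ k, 4 ^ (3 * j) = 63 * k + 1 := by
          clear * -
          induction j with
          | zero => exact ⟨0, rfl⟩
          | succ j ih =>
            obtain ⟨k, hk⟩ := ih
            exact ⟨64 * k + 1, by rw [Nat.mul_succ, pow_add, hk]; ring⟩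
        obtain ⟨k, hk⟩ := this
        exact ⟨64 * k + 1, by rw [Nat.mul_succ, pow_add, hk]; ring⟩
    obtain ⟨k, hk⟩ := h7
    rw [hk, pow_succ, pow_mul, K63 g hg0 hgen hord y hy, one_pow, one_mul]
  rw [h6] at h1
  have ha1 : a = 1 := (mul_eq_right₀ hx).mp h1
  ext y
  have h8 := hac y.toAdd
  rw [h6, ha1, one_mul] at h8
  exact Multiplicative.toAdd.injective h8

include hg0 hgen hord in
theorem Cc_trans (v w : Multiplicative K) (hv : v ≠ 1) (hw : w ≠ 1) :
    ∃ c ∈ Cc g (g213 g hord), c v = w := by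
  have hx : v.toAdd ≠ 0 := fun h => hv h
  have hy : w.toAdd ≠ 0 := fun h => hw h
  set x := v.toAdd with hxv
  set y := w.toAdd with hyw
  obtain ⟨i, hi⟩ := hgen (y * x⁻¹) (mul_ne_zero hy (inv_ne_zero hx))
  have ha : y * (x ^ (4 ^ i))⁻¹ ≠ 0 := mul_ne_zero hy (inv_ne_zero (pow_ne_zero _ hx))
  refine ⟨aut _ ha i, ⟨i, aut_PP g _ ha i ?_⟩, ?_⟩
  · have h1 : (x ^ 21) ^ 3 = 1 := by
      rw [← pow_mul]; exact K63 g hg0 hgen hord x hx
    have h2 : (x ^ (4 ^ i)) ^ 21 = x ^ 21 := by
      rw [← pow_mul, mul_comm, pow_mul]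
      exact cube_pow _ h1 i
    rw [mul_pow, inv_pow, h2, ← inv_pow, ← mul_pow, hi, ← pow_mul, ← pow_mul, mul_comm]
  · apply Multiplicative.toAdd.injective
    show (y * (x ^ (4 ^ i))⁻¹) * x ^ (4 ^ i) = y
    rw [inv_mul_cancel_right₀ (pow_ne_zero _ hx)]

include hg0 hgen hord in
theorem card_Cc : Nat.card (Cc g (g213 g hord)) = 63 := by
  have v0 : (Multiplicative.ofAdd (1 : K)) ≠ 1 := ofAdd_ne one_ne_zero
  have hne : ∀ c : Cc g (g213 g hord), (c : MulAut (Multiplicative K)) (Multiplicative.ofAdd (1 : K)) ≠ 1 := by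
    intro c h
    exact v0 ((map_eq_one_iff _ (MulEquiv.injective _)).mp h)
  have hbij : Function.Bijective (fun c : Cc g (g213 g hord) =>
      (⟨(c : MulAut (Multiplicative K)) (Multiplicative.ofAdd (1 : K)), hne c⟩ :
        {v : Multiplicative K // v ≠ 1})) := by
    constructor
    · intro c d h
      have h1 : (c : MulAut (Multiplicative K)) (Multiplicative.ofAdd (1 : K)) =
          (d : MulAut (Multiplicative K)) (Multiplicative.ofAdd (1 : K)) := congrArg Subtype.val h
      by_contra hcd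
      apply v0
      apply Cc_free g hg0 hgen hord ((d⁻¹ * c : Cc g (g213 g hord)) : MulAut (Multiplicative K))
        (d⁻¹ * c).2
      · intro h2
        apply hcd
        have h3 : d⁻¹ * c = 1 := Subtype.ext h2
        exact (inv_mul_eq_one.mp h3).symm
      · show ((d : MulAut (Multiplicative K))⁻¹ * c) _ = _
        rw [MulAut.mul_apply, h1, MulAut.inv_apply_self]
    · rintro ⟨w, hw⟩
      obtain ⟨c, hc, hcw⟩ := Cc_trans g hg0 hgen hord _ w v0 hw
      exact ⟨⟨c, hc⟩, Subtype.ext hcw⟩
  rw [Nat.card_congr (Equiv.ofBijective _ hbij)]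
  have h1 : Nat.card {v : Multiplicative K // v ≠ 1} = Nat.card Kˣ :=
    Nat.card_congr (unitsEquivNeZero (G₀ := K)).symm
  rw [h1, Nat.card_units, cardK]

theorem result : ∃ (G : Type) (_ : Group G) (_ : Finite G), Even (Nat.card G) ∧
    ∃ (k : ℕ) (I : Subgroup G), IsClass I ∧ Odd (Nat.card I) ∧
      deficiency (I : Set G) = k + 1 ∧
      ∀ L : Subgroup G, IsOption I L → ¬ (Even (Nat.card L) ∧ deficiency (L : Set G) = k) := by
  obtain ⟨g, hg0, hgen, hord⟩ := exists_g
  have hz : g ^ 3 ≠ 0 := pow_ne_zero _ hg0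
  have hb : g ^ 7 ≠ 0 := pow_ne_zero _ hg0
  let C := Cc g (g213 g hord)
  let c1 : C := ⟨aut (g ^ 3) hz 0, 0, aut_PP g _ hz 0 (by
    rw [pow_zero, ← pow_mul, hord])⟩
  let c2 : C := ⟨aut (g ^ 7) hb 1, 1, aut_PP g _ hb 1 (by
    rw [pow_one, ← pow_mul, ← sub_eq_zero]
    have : g ^ (7 * 21) = g ^ (63 + 63) * g ^ 21 := by rw [← pow_add]
    rw [this, (hord (63 + 63)).mpr (by norm_num), one_mul, sub_self])⟩
  have hc1pow : ∀ n : ℕ, ∀ x : K, (((c1 ^ n : C) : MulAut (Multiplicative K))
      (Multiplicative.ofAdd x)).toAdd = g ^ (3 * n) * x := by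
    intro n
    induction n with
    | zero => intro x; simp
    | succ n ih =>
      intro x
      rw [pow_succ]
      show (((c1 ^ n : C) : MulAut (Multiplicative K))
        (aut (g ^ 3) hz 0 (Multiplicative.ofAdd x))).toAdd = _
      have h1 : aut (g ^ 3) hz 0 (Multiplicative.ofAdd x) = Multiplicative.ofAdd (g ^ 3 * x) := by
        apply Multiplicative.toAdd.injective
        rw [aut_apply]; simp
      rw [h1, ih, Nat.mul_succ, pow_add, mul_assoc]
  have hrel : c2 * c1 * c2⁻¹ = c1 ^ 4 := by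
    rw [mul_inv_eq_iff_eq_mul]
    apply Subtype.ext
    ext v
    apply Multiplicative.toAdd.injective
    have e1 : (((c2 * c1 : C) : MulAut (Multiplicative K)) v).toAdd =
        g ^ 7 * (g ^ 3 * v.toAdd) ^ 4 := by
      show (aut (g ^ 7) hb 1 (aut (g ^ 3) hz 0 (Multiplicative.ofAdd v.toAdd))).toAdd = _
      have h1 : aut (g ^ 3) hz 0 (Multiplicative.ofAdd v.toAdd) =
          Multiplicative.ofAdd (g ^ 3 * v.toAdd) := by
        apply Multiplicative.toAdd.injective
        rw [aut_apply]; simp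
      rw [h1, aut_apply]; simp
    have e2 : (((c1 ^ 4 * c2 : C) : MulAut (Multiplicative K)) v).toAdd =
        g ^ 12 * (g ^ 7 * v.toAdd ^ 4) := by
      show (((c1 ^ 4 : C) : MulAut (Multiplicative K))
        (aut (g ^ 7) hb 1 (Multiplicative.ofAdd v.toAdd))).toAdd = _
      have h1 : aut (g ^ 7) hb 1 (Multiplicative.ofAdd v.toAdd) =
          Multiplicative.ofAdd (g ^ 7 * v.toAdd ^ 4) := by
        apply Multiplicative.toAdd.injective
        rw [aut_apply]; simp
      rw [h1, hc1pow]
    rw [e1, e2]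
    ring
  have h4 : c1 ^ 4 ≠ 1 := by
    intro h
    have h1 := hc1pow 4 1
    rw [h] at h1
    have h2 : g ^ 12 = 1 := by simpa using h1.symm
    rw [hord] at h2
    norm_num at h2
  have hnc : c1 ^ 4 ≠ c1 := by
    intro h
    have h0 : c1 ^ 3 = 1 := by
      have : c1 ^ 3 * c1 = 1 * c1 := by rw [← pow_succ, h, one_mul]
      exact mul_right_cancel this
    have h1 := hc1pow 3 1
    rw [h0] at h1
    have h2 : g ^ 9 = 1 := by simpa using h1.symm
    rw [hord] at h2
    norm_num at h2
  have hgen2 : closure {c1, c2} = (⊤ : Subgroup C) := by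
    rw [eq_top_iff]
    rintro ⟨f, i, hf⟩ -
    have m1 : c1 ∈ closure ({c1, c2} : Set C) := Subgroup.subset_closure (by simp)
    have m2 : c2 ∈ closure ({c1, c2} : Set C) := Subgroup.subset_closure (by simp)
    have h1 : PP g (1 * i) ((c2 : MulAut (Multiplicative K)) ^ i) :=
      PP_pow g (g213 g hord) 1 _ (aut_PP g _ hb 1 (by
        rw [pow_one, ← pow_mul, ← sub_eq_zero]
        have : g ^ (7 * 21) = g ^ (63 + 63) * g ^ 21 := by rw [← pow_add]
        rw [this, (hord (63 + 63)).mpr (by norm_num), one_mul, sub_self])) i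
    rw [one_mul] at h1
    obtain ⟨a, ha, haf⟩ := hf
    obtain ⟨b, hb', hbf⟩ := h1
    have hg21 : (g ^ 21) ^ i ≠ 0 := pow_ne_zero _ (pow_ne_zero _ hg0)
    have ha0 : a ≠ 0 := by
      rintro rfl
      rw [← ha] at hg21
      simp at hg21
    have hb0 : b ≠ 0 := by
      rintro rfl
      rw [← hb'] at hg21
      simp at hg21
    obtain ⟨m, hm⟩ := hgen (a * b⁻¹) (mul_ne_zero ha0 (inv_ne_zero hb0))
    have h2 : (a * b⁻¹) ^ 21 = 1 := by
      rw [mul_pow, inv_pow, ha, hb', mul_inv_cancel₀ hg21]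
    rw [hm, ← pow_mul, hord] at h2
    obtain ⟨k, hk⟩ : 3 ∣ m := by omega
    have h3 : (⟨f, i, a, ha, haf⟩ : C) = c1 ^ k * c2 ^ i := by
      apply Subtype.ext
      ext v
      apply Multiplicative.toAdd.injective
      show (f (Multiplicative.ofAdd v.toAdd)).toAdd = (((c1 ^ k : C) : MulAut (Multiplicative K))
        (((c2 : MulAut (Multiplicative K)) ^ i) (Multiplicative.ofAdd v.toAdd))).toAdd
      have h4 : ((c2 : MulAut (Multiplicative K)) ^ i) (Multiplicative.ofAdd v.toAdd) =
          Multiplicative.ofAdd (b * v.toAdd ^ (4 ^ i)) := by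
        apply Multiplicative.toAdd.injective
        rw [hbf]; rfl
      rw [h4, hc1pow, haf, ← hk, ← hm, ← mul_assoc, inv_mul_cancel_right₀ hb0]
    rw [h3]
    exact mul_mem (pow_mem m1 _) (pow_mem m2 _)
  have hV : ∃ v : Multiplicative K, v ≠ 1 := ⟨_, ofAdd_ne (one_ne_zero (α := K))⟩
  have hfin := main C (Cc_free g hg0 hgen hord) (Cc_trans g hg0 hgen hord) c1 c2 hgen2 hrel h4 hnc
    hV (by rw [card_Cc g hg0 hgen hord]; decide)
  refine ⟨Gp C, inferInstance, inferInstance, ?_, 1, _, hfin.1, hfin.2.1, hfin.2.2.1, hfin.2.2.2⟩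
  rw [SemidirectProduct.card]
  have : Nat.card (Multiplicative K) = 64 := cardK
  rw [this]
  exact Even.mul_right (by decide) _

end field

end Pool.Agent.Results.MP_ecc06a_al.OddClass
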